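import Pool.Agent.Lib.MP_530e0f_al.Weyr

/-! A complete characterisation of products of three involutions in terms of Jordan data. -/

namespace Pool.Agent.Results.MP_530e0f_al.ThreeInvolutions

universe u

/-- `weyr A μ k = rank (A - μ)^k - rank (A - μ)^(k+1)`: the number of Jordan blocks of `A` of
size greater than `k` for the eigenvalue `μ` (zero if `μ` is not an eigenvalue). -/
noncomputable def weyr {F : Type u} [Field F] {n : ℕ} (A : Matrix (Fin n) (Fin n) F) (μ : F)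
    (k : ℕ) : ℕ :=
  ((A - μ • (1 : Matrix (Fin n) (Fin n) F)) ^ k).rank -
    ((A - μ • (1 : Matrix (Fin n) (Fin n) F)) ^ (k + 1)).rank

/-- The recursive numerical condition on a size `n` and Jordan data `w`. -/
inductive Good {F : Type u} [Field F] : ℕ → (F → ℕ → ℕ) → Prop
  | base (n : ℕ) (w : F → ℕ → ℕ) (h : ∀ l : F, l ^ 4 ≠ 1 → 2 * w l 0 ≤ n) : Good n w
  | step (n n' : ℕ) (w w' : F → ℕ → ℕ) (l : F) (h4 : l ^ 4 ≠ 1) (hdom : n < 2 * w l 0)
      (hn : n' + 4 * w l 0 = 3 * n)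
      (hl : ∀ k, w' (l ^ 3) k = w l (k + 1))
      (ho : ∀ μ : F, μ ≠ l → μ ≠ l⁻¹ ^ 3 → ∀ k, w' (l ^ 2 * μ) k = w μ k)
      (hanti : ∀ k, w' l⁻¹ (k + 1) ≤ w' l⁻¹ k)
      (hint : ∀ k, w' l⁻¹ (k + 1) ≤ w (l⁻¹ ^ 3) k ∧ w (l⁻¹ ^ 3) (k + 1) ≤ w' l⁻¹ k)
      (hsum : ∑ k ∈ Finset.range n, w' l⁻¹ k + n =
        n' + w l 0 + ∑ k ∈ Finset.range n, w (l⁻¹ ^ 3) k)
      (ih : Good n' w') : Good n w

open Module Submodule Pool.Agent.Lib.MP_530e0f_al
open LinearMap hiding sub_apply smul_apply add_apply zero_apply neg_apply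

variable {F : Type u} [Field F]

section

variable {V U X : Type u} [AddCommGroup V] [Module F V] [AddCommGroup U] [Module F U]
  [AddCommGroup X] [Module F X] [FiniteDimensional F V] [FiniteDimensional F U]
  [FiniteDimensional F X]

theorem rel {l : F} (h0 : l ≠ 0) (h4 : l ^ 4 ≠ 1) (a : U →ₗ[F] V) (b : V →ₗ[F] U)
    (ha : Function.Injective a) (hb : Function.Surjective b) (a' : U →ₗ[F] X) (b' : X →ₗ[F] U)
    (e : l ^ 2 • (l • (1 : End F U) + b ∘ₗ a) = l⁻¹ • 1 + b' ∘ₗ a') :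
    (∀ k, wy (sh (l⁻¹ • 1 + a' ∘ₗ b') (l ^ 3)) k = wy (sh (l • 1 + a ∘ₗ b) l) (k + 1)) ∧
    (∀ μ : F, μ ≠ l → μ ≠ l⁻¹ ^ 3 →
      wy (sh (l⁻¹ • 1 + a' ∘ₗ b') (l ^ 2 * μ)) = wy (sh (l • 1 + a ∘ₗ b) μ)) ∧
    wy (b' ∘ₗ a') = wy (sh (l • 1 + a ∘ₗ b) (l⁻¹ ^ 3)) := by
  have e1 : ∀ μ : F, sh (b' ∘ₗ a') (l ^ 2 * μ - l⁻¹) = l ^ 2 • sh (b ∘ₗ a) (μ - l) := by
    intro μ
    rw [← sh_add, ← e, ← sh_add]
    ext x; simp only [sh_apply, LinearMap.smul_apply, smul_sub, smul_smul]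
  have n1 : ∀ μ : F, μ ≠ l⁻¹ ^ 3 → l ^ 2 * μ - l⁻¹ ≠ 0 := by
    intro μ hμ h
    apply hμ
    rw [sub_eq_zero] at h
    rw [← mul_right_inj' (pow_ne_zero 2 h0), h]; field_simp
  have n2 : l ≠ l⁻¹ ^ 3 := by
    intro h; apply h4
    rw [pow_succ' l 3]; nth_rw 1 [h]; field_simp
  have e2 : ∀ μ : F, μ ≠ l⁻¹ ^ 3 →
      wy (sh (l⁻¹ • 1 + a' ∘ₗ b') (l ^ 2 * μ)) = wy (sh (b ∘ₗ a) (μ - l)) := by
    intro μ hμ
    rw [sh_add, wy_flanders _ _ (n1 μ hμ), e1, wy_smul _ (pow_ne_zero 2 h0)]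
  refine ⟨fun k => ?_, fun μ h1 h2 => ?_, ?_⟩
  · rw [pow_succ l 2, e2 l n2, sh_add_self, wy_exact a b ha hb]
    simp [sh]
  · rw [e2 μ h2, sh_add, wy_flanders a b (sub_ne_zero.2 h1)]
  · rw [sh_add, wy_flanders a b (sub_ne_zero.2 n2.symm), ← wy_smul (sh _ _) (pow_ne_zero 2 h0), ← e1,
      show l ^ 2 * l⁻¹ ^ 3 - l⁻¹ = 0 by field_simp; simp]
    simp [sh]

end

theorem good_of_i3 (n : ℕ) : ∀ (V : Type u) [AddCommGroup V] [Module F V]
    [FiniteDimensional F V], finrank F V = n → ∀ A : End F V, I3 A →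
    Good n (fun μ => wy (sh A μ)) := by
  induction n using Nat.strong_induction_on with
  | _ n ih =>
  intro V _ _ _ hn A hA
  by_cases h : ∀ l : F, l ^ 4 ≠ 1 → 2 * wy (sh A l) 0 ≤ n
  · exact Good.base _ _ h
  push Not at h
  obtain ⟨l, h4, hl⟩ := h
  have w0 := wy_zero (sh A l)
  have h0 : l ≠ 0 := Dom.ne_zero (by unfold Dom; omega) hA
  obtain ⟨n', e, M, o, d⟩ := (cl_of_i3 _ _ (sh_factor A l ▸ hA)).mutate h0 h4
  obtain ⟨r1, r2, r3⟩ := rel h0 h4 _ _ (injective_subtype _) (surjective_rangeRestrict _) M.a M.b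
    o.red
  rw [← sh_factor] at r1 r2 r3
  unfold rk at w0
  unfold Mod.dim at d
  refine Good.step n n' _ _ l h4 hl (by omega) r1 (fun μ h1 h2 k => congrFun (r2 μ h1 h2) k)
    (fun k => wy_anti _ (Nat.le_succ k)) ?_ ?_ (ih n' (by omega) M.V d _ o.i3)
  · intro k
    simp only [sh_add_self, ← r3]
    exact ⟨wy_inter _ _ _, wy_inter _ _ _⟩
  · simp only [sh_add_self, ← r3]
    have := wy_sum_eq M.a M.b n (wy_eq_zero _ (by omega)) (wy_eq_zero _ (by omega))
    omega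

theorem i3_of_good {n : ℕ} {w : F → ℕ → ℕ} (h : Good n w) : ∀ (V : Type u) [AddCommGroup V]
    [Module F V] [FiniteDimensional F V], finrank F V = n → ∀ A : End F V,
    w = (fun μ => wy (sh A μ)) → LinearMap.det A ^ 2 = 1 → I3 A := by
  induction h with
  | base n w h =>
    rintro V _ _ _ hn A rfl hd
    refine (base n V hn A hd fun c hc => ?_).1
    have : 2 * wy (sh A c) 0 ≤ n := h c hc
    have := wy_zero (sh A c)
    unfold Dom; omega
  | step n n' w w' l h4 hdom hn' hl ho hanti hint hsum _ ih =>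
    rintro V _ _ _ hn A rfl hd
    have w0 := wy_zero (sh A l)
    simp only at hdom hn' hl ho hint hsum
    have hD : Dom A l := by unfold Dom; omega
    have h0 : l ≠ 0 := by
      rintro rfl
      unfold Dom at hD
      rw [rk_inj _ (by simpa [sh] using inj_of_det hd)] at hD
      omega
    set R : End F (range (sh A l)) := l • 1 + (sh A l).rangeRestrict ∘ₗ (range (sh A l)).subtype
      with hR
    have rP := (rel h0 h4 _ _ (injective_subtype _) (surjective_rangeRestrict _) LinearMap.id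
      (l ^ 2 • R - l⁻¹ • 1) (by rw [← hR]; simp)).2.2
    rw [← sh_factor, comp_id] at rP
    obtain ⟨X, _, _, _, a', b', e1, e2, -⟩ := flanders_suff _ _ rfl (l ^ 2 • R - l⁻¹ • 1) (w' l⁻¹)
      (antitone_nat_of_succ_le hanti) (by rw [rP]; exact hint)
    have e3 : l ^ 2 • R = l⁻¹ • 1 + b' ∘ₗ a' := by rw [e1]; simp
    obtain ⟨r1, r2, r3⟩ := rel h0 h4 _ _ (injective_subtype _) (surjective_rangeRestrict _) a' b' e3
    rw [← sh_factor] at r1 r2 r3
    unfold rk at w0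
    have hX : finrank F X = n' := by
      obtain ⟨m, rfl⟩ : ∃ m, n = m + 1 := ⟨n - 1, by omega⟩
      have z1 : wy (b' ∘ₗ a') m = 0 := wy_eq_zero _ (by omega)
      have := wy_sum_eq a' b' (m + 1) (by have := wy_inter a' b' m; omega)
        (wy_eq_zero _ (by omega))
      rw [e2, r3] at this
      omega
    have hI := ih X hX (l⁻¹ • 1 + a' ∘ₗ b') (by
      ext μ k
      by_cases c1 : μ = l⁻¹
      · rw [c1, sh_add_self, e2]
      by_cases c2 : μ = l ^ 3
      · rw [c2, r1, hl]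
      have k0 : μ = l ^ 2 * (μ / l ^ 2) := by field_simp
      have k1 : μ / l ^ 2 ≠ l := fun h => c2 (by rw [k0, h]; ring)
      have k2 : μ / l ^ 2 ≠ l⁻¹ ^ 3 := fun h => c1 (by rw [k0, h]; field_simp)
      rw [k0, r2 _ k1 k2, ho _ k1 k2]) (by
      have d1 := det_sylv (range (sh A l)).subtype (sh A l).rangeRestrict l h0
      have d2 := det_sylv a' b' l⁻¹ (inv_ne_zero h0)
      rw [← sh_factor, ← hR] at d1
      rw [← e3, LinearMap.det_smul, hX] at d2
      set ρ := finrank F (range (sh A l))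
      have : LinearMap.det (l⁻¹ • 1 + a' ∘ₗ b') = LinearMap.det A := by
        have k : l ^ (4 * ρ) = l ^ n' * l ^ finrank F V := by rw [← pow_add]; congr 1; omega
        apply mul_right_cancel₀ (pow_ne_zero ρ (inv_ne_zero h0))
        apply mul_right_cancel₀ (pow_ne_zero (2 * ρ) h0)
        have k2 : LinearMap.det A * l⁻¹ ^ ρ * l ^ (2 * ρ) = LinearMap.det A * l ^ ρ := by
          rw [inv_pow]; field_simp; ring
        rw [d2, k2, d1, inv_pow]
        field_simp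
        linear_combination (LinearMap.det R) * k
      rw [this, hd])
    have c1 := cl_of_i3 _ _ hI
    rw [← e3] at c1
    obtain ⟨m, e4, c2⟩ := c1.mutate_back h0 h4
    rw [show m = finrank F V by omega] at c2
    exact ((mstat _).dom h0 h4 hD c2).1

theorem weyr_eq {n : ℕ} (A : Matrix (Fin n) (Fin n) F) :
    weyr A = fun μ => wy (sh (Matrix.toLinAlgEquiv' A) μ) := by
  have : ∀ (μ : F) (k : ℕ), ((A - μ • (1 : Matrix (Fin n) (Fin n) F)) ^ k).rank =
      rk (sh (Matrix.toLinAlgEquiv' A) μ ^ k) := by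
    intro μ k
    have : sh (Matrix.toLinAlgEquiv' A) μ ^ k = Matrix.toLinAlgEquiv' ((A - μ • 1) ^ k) := by
      rw [map_pow, map_sub, map_smul, map_one]
    rw [this]; rfl
  ext μ k
  unfold weyr wy
  rw [this, this]

theorem result {F : Type u} [Field F] (n : ℕ) (A : Matrix (Fin n) (Fin n) F) :
    (∃ J1 J2 J3 : Matrix (Fin n) (Fin n) F, J1 * J1 = 1 ∧ J2 * J2 = 1 ∧ J3 * J3 = 1 ∧
      A = J1 * J2 * J3) ↔ (A.det = 1 ∨ A.det = -1) ∧ Good n (weyr A) := by
  have hd : LinearMap.det (Matrix.toLinAlgEquiv' A) = A.det := LinearMap.det_toLin' A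
  constructor
  · rintro ⟨J1, J2, J3, h1, h2, h3, h4⟩
    have hI : I3 (Matrix.toLinAlgEquiv' A) := ⟨Matrix.toLinAlgEquiv' J1, Matrix.toLinAlgEquiv' J2,
      Matrix.toLinAlgEquiv' J3, by rw [← map_mul, h1, map_one], by rw [← map_mul, h2, map_one],
      by rw [← map_mul, h3, map_one], by rw [← map_mul, ← map_mul, h4]⟩
    refine ⟨?_, ?_⟩
    · rw [← hd]; exact sq_eq_one_iff.1 hI.det_sq
    · rw [weyr_eq]; exact good_of_i3 n _ (by simp) _ hI
  · rintro ⟨h1, h2⟩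
    obtain ⟨J1, J2, J3, k1, k2, k3, k4⟩ := i3_of_good h2 _ (by simp) _ (weyr_eq A) (by
      rw [hd]; rcases h1 with h | h <;> simp [h])
    refine ⟨Matrix.toLinAlgEquiv'.symm J1, Matrix.toLinAlgEquiv'.symm J2,
      Matrix.toLinAlgEquiv'.symm J3, by rw [← map_mul, k1, map_one],
      by rw [← map_mul, k2, map_one], by rw [← map_mul, k3, map_one], ?_⟩
    rw [← map_mul, ← map_mul, k4, AlgEquiv.symm_apply_apply]

end Pool.Agent.Results.MP_530e0f_al.ThreeInvolutions
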